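import Pool.Agent.W23.SG.All

/-!
# `N = p + m P₂` with `p` in an arbitrary set of primes

The question asks for a lower bound, of the expected order, for the number of primes `p` such that
`N - p` is prime. Here `p` is restricted to an arbitrary set `A` of primes up to `X`, and `N - p` is
`± m s`, where `s` is a product of at most two primes larger than `X ^ (1 / 7)` and `m` is small or
smooth (for an arbitrary set `A` such a factor cannot be avoided). In all cases the lower bound is
`c |A|`, a positive proportion of all `p ∈ A`, for all integers `N` with `|N| ≤ 2 X` with few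
exceptions; for `X < N` this is `N = p + m s`, for `N < 0` it is `p + |N| = m s`.

* Dense sets, `|A| ≥ δ X / log X`, with `m ≤ X ^ ε`: at most `K` exceptions, where `K` depends on
  `δ` and `ε` only.
* Sparse sets, `|A| ≥ X ^ (1 - η)`, where all prime factors of `m` are smaller than `X ^ ε`: at most
  `C X / (|A| log X)` exceptions, where `c`, `C` and `η` depend on `ε` only.
* For every set `P` of primes of positive upper density (relative to the primes) there are at most
  `K` integers `h` such that only finitely many `p ∈ P` satisfy `p + h = ± m s` with `m ≤ p ^ ε` and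
  `s` a product of one or two primes larger than `p ^ (1 / 7)`.

The first two parts are the theorems `dense_almost_prime` and `sparse_sets` of the starting files
`Pool/Agent/W23/DC/All.lean` and `Pool/Agent/W23/SG/All.lean`, which had not been handed in. They
rest on a Bessel inequality for the discrepancies of arbitrary functions on the primes in residue
classes to rough moduli beyond the square root, and on the weighted sieve.
-/

set_option autoImplicit false

namespace Pool.Agent.Results.MP_dd84fd_nt.ArbitrarySetsOfPrimes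

open Finset Filter Pool.Agent.W23

/-- `n` is, up to sign, a product `m s`, where `1 ≤ m ≤ y ^ ε` (if `n ≠ 0`) and `s > 1` has at most two
prime factors (with multiplicity), all of them larger than `y ^ (1 / 7)`. -/
def AlmostPrime (ε y : ℝ) (n : ℤ) : Prop :=
  ∃ m s : ℕ, n.natAbs = m * s ∧ (m : ℝ) ≤ y ^ ε ∧ 1 < s ∧ s.primeFactorsList.length ≤ 2 ∧
    ∀ q ∈ s.primeFactors, y ^ (1 / 7 : ℝ) < q

/-- `n` is not zero and, up to sign, a product `m s`, where all prime factors of `m` are smaller than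
`y ^ ε` and `s` has at most two prime factors (with multiplicity), all of them larger than
`y ^ (1 / 7)`. -/
def SmoothAlmostPrime (ε y : ℝ) (n : ℤ) : Prop :=
  n ≠ 0 ∧ ∃ m s : ℕ, n.natAbs = m * s ∧ (∀ l : ℕ, l.Prime → l ∣ m → (l : ℝ) < y ^ ε) ∧
    s.primeFactorsList.length ≤ 2 ∧ ∀ q ∈ s.primeFactors, y ^ (1 / 7 : ℝ) < q

open Classical in
/-- Arbitrary sets of primes and almost primes. -/
theorem result :
    (∀ δ ε : ℝ, 0 < δ → 0 < ε → ∃ (c : ℝ) (K : ℕ), 0 < c ∧ ∀ X : ℕ, 2 ≤ X → ∀ A : Finset ℕ,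
      (∀ p ∈ A, p.Prime ∧ p ≤ X) → δ * X / Real.log X ≤ A.card →
      ((Icc (-(2 * X : ℤ)) (2 * X)).filter (fun N : ℤ =>
        ((A.filter (fun p : ℕ => AlmostPrime ε X (N - p))).card : ℝ) < c * A.card)).card ≤ K) ∧
    (∀ ε : ℝ, 0 < ε → ∃ c C η : ℝ, 0 < c ∧ 0 < η ∧ ∀ X : ℕ, 2 ≤ X → ∀ A : Finset ℕ,
      (∀ p ∈ A, p.Prime ∧ p ≤ X) → (X : ℝ) ^ (1 - η) ≤ A.card →
      (((Icc (-(2 * X : ℤ)) (2 * X)).filter (fun N : ℤ =>
        ((A.filter (fun p : ℕ => SmoothAlmostPrime ε X (N - p))).card : ℝ) <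
          c * A.card)).card : ℝ) ≤ C * (X / (A.card * Real.log X))) ∧
    (∀ δ ε : ℝ, 0 < δ → 0 < ε → ∃ K : ℕ, ∀ P : Set ℕ, (∀ p ∈ P, p.Prime) →
      (∃ᶠ X : ℕ in atTop, δ * X / Real.log X ≤ ({p : ℕ | p ∈ P ∧ p ≤ X}.ncard : ℝ)) →
      {h : ℤ | {p : ℕ | p ∈ P ∧ AlmostPrime ε p (p + h)}.Finite}.Finite ∧
      {h : ℤ | {p : ℕ | p ∈ P ∧ AlmostPrime ε p (p + h)}.Finite}.ncard ≤ K) := by
  refine ⟨fun δ ε hδ hε => ?_, fun ε hε => ?_, fun δ ε hδ hε => ?_⟩
  · exact DC.dense_almost_prime δ ε hδ hε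
  · obtain ⟨c, C, η, hc, hη, H⟩ := SG.sparse_sets ε hε
    refine ⟨c, C, η, hc, hη, fun X hX A hA hcard => ?_⟩
    refine le_trans ?_ (H X hX A hA hcard)
    refine Nat.cast_le.2 (Finset.card_le_card (Finset.monotone_filter_right _ fun N _ hN => ?_))
    refine lt_of_le_of_lt ?_ hN
    refine Nat.cast_le.2 (Finset.card_le_card (Finset.monotone_filter_right _ fun p _ hp => ?_))
    exact ⟨fun h => hp.1 (sub_eq_zero.1 h).symm, hp.2⟩
  · obtain ⟨c, K, hc, H⟩ := DC.dense_almost_prime δ (ε / 2) hδ (by positivity)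
    refine ⟨K, fun P hP hfreq => ?_⟩
    set E := {h : ℤ | {p : ℕ | p ∈ P ∧ AlmostPrime ε p (p + h)}.Finite} with hE
    have key : ∀ F : Finset ℤ, (∀ h ∈ F, h ∈ E) → F.card ≤ K := by
      intro F hF
      have hbd : ∃ q0 : ℕ, ∀ h ∈ F, ∀ q : ℕ, q ∈ P → AlmostPrime ε q (q + h) → q < q0 := by
        have h1 : ({q : ℕ | ∃ h ∈ F, q ∈ P ∧ AlmostPrime ε q (q + h)}).Finite := by
          have h2 : {q : ℕ | ∃ h ∈ F, q ∈ P ∧ AlmostPrime ε q (q + h)} =
              ⋃ h ∈ F, {q : ℕ | q ∈ P ∧ AlmostPrime ε q (q + h)} := by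
            ext q
            simp only [Set.mem_ofPred_eq, Set.mem_iUnion, exists_prop]
          rw [h2]
          exact F.finite_toSet.biUnion fun h hh => hF h hh
        obtain ⟨b, hb⟩ := h1.bddAbove
        exact ⟨b + 1, fun h hh q hq hq2 => Nat.lt_succ_of_le (hb ⟨h, hh, hq, hq2⟩)⟩
      obtain ⟨q0, hq0⟩ := hbd
      have e2 : ∀ᶠ X : ℕ in atTop, (q0 : ℝ) + Real.sqrt X + 2 < c * (δ * X / Real.log X) := by
        have h1 : ∀ᶠ x : ℝ in atTop, ‖Real.log x‖ ≤ (c * δ / 2) * ‖x ^ (1 / 4 : ℝ)‖ :=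
          (isLittleO_log_rpow_atTop (by norm_num)).bound (by positivity)
        have h2 : Tendsto (fun x : ℝ => x ^ (3 / 4 : ℝ) - x ^ (1 / 2 : ℝ)) atTop atTop := by
          have h3 : (fun x : ℝ => x ^ (1 / 2 : ℝ) * (x ^ (1 / 4 : ℝ) - 1)) =ᶠ[atTop]
              fun x : ℝ => x ^ (3 / 4 : ℝ) - x ^ (1 / 2 : ℝ) := by
            filter_upwards [eventually_gt_atTop 0] with x hx
            rw [mul_sub, ← Real.rpow_add hx, mul_one]
            norm_num
          refine Tendsto.congr' h3 ?_
          exact (tendsto_rpow_atTop (by norm_num)).atTop_mul_atTop₀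
            (tendsto_atTop_add_const_right _ _ (tendsto_rpow_atTop (by norm_num)))
        filter_upwards [tendsto_natCast_atTop_atTop.eventually h1,
          tendsto_natCast_atTop_atTop.eventually (h2.eventually_gt_atTop ((q0 : ℝ) + 2)),
          eventually_ge_atTop 3] with X hX hX2 hX3
        have hX0 : (0 : ℝ) < X := by positivity
        have hlog : 0 < Real.log X := Real.log_pos (by exact_mod_cast (by omega : 1 < X))
        rw [Real.norm_of_nonneg hlog.le, Real.norm_of_nonneg (by positivity)] at hX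
        have h5 : (X : ℝ) ^ (3 / 4 : ℝ) * (X : ℝ) ^ (1 / 4 : ℝ) = X := by
          rw [← Real.rpow_add hX0]
          norm_num
        have h6 : 0 < (X : ℝ) ^ (3 / 4 : ℝ) := by positivity
        have h7 : 0 < (X : ℝ) ^ (1 / 4 : ℝ) := by positivity
        rw [Real.sqrt_eq_rpow]
        have h8 : 2 * (X : ℝ) ^ (3 / 4 : ℝ) ≤ c * (δ * X / Real.log X) := by
          rw [mul_div_assoc', le_div_iff₀ hlog]
          nlinarith [mul_le_mul_of_nonneg_left hX h6.le]
        linarith
      have e3 : ∀ᶠ X : ℕ in atTop, ∀ h ∈ F, h.natAbs ≤ X := by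
        rw [Filter.eventually_all_finset]
        intro h _
        exact eventually_ge_atTop _
      obtain ⟨X, hXf, h2, h3, hX3⟩ := (hfreq.and_eventually
        (e2.and (e3.and (eventually_ge_atTop 3)))).exists
      have hX0 : (0 : ℝ) < X := by positivity
      have hlog : 0 < Real.log X := Real.log_pos (by exact_mod_cast (by omega : 1 < X))
      have hPf : {p : ℕ | p ∈ P ∧ p ≤ X}.Finite := (Set.finite_Iic X).subset fun p hp => hp.2
      set Q := hPf.toFinset with hQ
      have hQc : (Q.card : ℝ) = ({p : ℕ | p ∈ P ∧ p ≤ X}.ncard : ℝ) := by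
        rw [Set.ncard_eq_toFinset_card _ hPf]
      rw [← hQc] at hXf
      have h4 := H X (by omega) Q (fun q hq => by
        rw [hQ, Set.Finite.mem_toFinset] at hq
        exact ⟨hP q hq.1, hq.2⟩) hXf
      refine le_trans ?_ h4
      rw [← Finset.card_map (f := (Equiv.neg ℤ).toEmbedding)]
      apply Finset.card_le_card
      intro N hN
      rw [Finset.mem_map] at hN
      obtain ⟨h, hh, rfl⟩ := hN
      have h5 := h3 h hh
      rw [Finset.mem_filter, Finset.mem_Icc]
      simp only [Equiv.coe_toEmbedding, Equiv.neg_apply]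
      refine ⟨⟨by omega, by omega⟩, ?_⟩
      have h6 : (Q.filter (fun p : ℕ =>
          ∃ m s : ℕ, (-h - p).natAbs = m * s ∧ (m : ℝ) ≤ (X : ℝ) ^ (ε / 2) ∧ 1 < s ∧
            s.primeFactorsList.length ≤ 2 ∧
            ∀ q ∈ s.primeFactors, (X : ℝ) ^ (1 / 7 : ℝ) < q)) ⊆ range (q0 + Nat.sqrt X + 1) := by
        intro q hq
        rw [mem_filter, hQ, Set.Finite.mem_toFinset] at hq
        obtain ⟨⟨hqP, hqX⟩, m, s, h8, h9, h10, h11, h12⟩ := hq
        rw [Finset.mem_range]
        by_contra hcon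
        rw [not_lt] at hcon
        have hqs : Nat.sqrt X < q := by omega
        have hqq : X < q * q := Nat.sqrt_lt.1 hqs
        have g1 : (X : ℝ) ^ (ε / 2) ≤ (q : ℝ) ^ ε := by
          calc (X : ℝ) ^ (ε / 2) ≤ ((q : ℝ) * q) ^ (ε / 2) :=
              Real.rpow_le_rpow hX0.le (by exact_mod_cast hqq.le) (by positivity)
            _ = (q : ℝ) ^ ε := by
              rw [← pow_two, ← Real.rpow_natCast, ← Real.rpow_mul (by positivity)]
              congr 1
              push_cast
              ring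
        have g2 : (q : ℝ) ^ (1 / 7 : ℝ) ≤ (X : ℝ) ^ (1 / 7 : ℝ) :=
          Real.rpow_le_rpow (by positivity) (by exact_mod_cast hqX) (by norm_num)
        have h13 := hq0 h hh q hqP ⟨m, s, by rw [← h8]; omega, h9.trans g1, h10, h11,
          fun l hl => lt_of_le_of_lt g2 (h12 l hl)⟩
        omega
      have h7 := Finset.card_le_card h6
      rw [card_range] at h7
      have h8 : ((Nat.sqrt X : ℕ) : ℝ) ≤ Real.sqrt X := Real.nat_sqrt_le_real_sqrt
      have h9 : ((q0 + Nat.sqrt X + 1 : ℕ) : ℝ) ≤ (q0 : ℝ) + Real.sqrt X + 2 := by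
        push_cast
        linarith
      refine lt_of_le_of_lt (le_trans (Nat.cast_le.2 h7) h9) ?_
      exact h2.trans_le (mul_le_mul_of_nonneg_left hXf hc.le)
    have hEf : E.Finite := by
      by_contra hinf
      obtain ⟨F, hF1, hF2⟩ := (Set.not_finite.1 hinf).exists_subset_card_eq (K + 1)
      have := key F fun L hL => hF1 hL
      omega
    refine ⟨hEf, ?_⟩
    rw [Set.ncard_eq_toFinset_card _ hEf]
    exact key _ fun L hL => by rwa [Set.Finite.mem_toFinset] at hL

end Pool.Agent.Results.MP_dd84fd_nt.ArbitrarySetsOfPrimes
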