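import Pool.Agent.TH423.PO.All

set_option autoImplicit false

open Finset Filter Topology

namespace Pool.Agent.Results.MP_dd84fd_nt.GoldbachJointClasses

/-- at most `R` prime factors (with multiplicity), all larger than `y` -/
def AlmostPrime (y : ℝ) (R : ℕ) (m : ℕ) : Prop :=
  (∀ p : ℕ, p.Prime → p ∣ m → y < p) ∧ ArithmeticFunction.cardFactors m ≤ R

theorem aux (y : ℝ) (R m : ℕ) :
    Pool.Agent.TH423.DS.AlmostPrime y R (m : ℤ) ↔ m ≠ 0 ∧ AlmostPrime y R m := by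
  unfold Pool.Agent.TH423.DS.AlmostPrime AlmostPrime
  simp only [Int.natAbs_natCast, Int.natCast_dvd_natCast, Ne, Nat.cast_eq_zero]

/-- Let `k ≥ 1` and `ε > 0`. There are `R`, `N₀` and `δ > 0` such that for EVERY even `N ≥ N₀` there
is a class `g` modulo `k` with the following properties. Representations are pairs `(x, y)` of
positive integers with `x + y = N`, both almost prime (at most `R` prime factors, all larger than
`N ^ δ`).

(1) For EVERY class `u` modulo `k` there are at least `N ^ (1 - ε)` representations with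
`Ω(x) ≡ u + g` and `Ω(y) ≡ u (mod k)`.

(2) For every class `u` modulo `k` there are at least `N ^ (1 - ε)` representations with
`Ω(x y) ≡ g + 2 u (mod k)`; if `k` is odd, there are so many with `Ω(x y) ≡ v (mod k)` for every `v`. -/
theorem result (k : ℕ) (hk : 1 ≤ k) (ε : ℝ) (hε : 0 < ε) :
    ∃ R N₀ : ℕ, ∃ δ : ℝ, 0 < δ ∧ ∀ N : ℕ, N₀ ≤ N → Even N → ∃ g : ZMod k,
      (∀ u : ZMod k,
        (N : ℝ) ^ (1 - ε) ≤ ({xy : ℕ × ℕ | 0 < xy.1 ∧ 0 < xy.2 ∧ xy.1 + xy.2 = N ∧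
          AlmostPrime ((N : ℝ) ^ δ) R xy.1 ∧ AlmostPrime ((N : ℝ) ^ δ) R xy.2 ∧
          ((ArithmeticFunction.cardFactors xy.1 : ℕ) : ZMod k) = u + g ∧
          ((ArithmeticFunction.cardFactors xy.2 : ℕ) : ZMod k) = u}.ncard : ℝ)) ∧
      (∀ v : ZMod k, (Odd k ∨ ∃ u : ZMod k, v = g + 2 * u) →
        (N : ℝ) ^ (1 - ε) ≤ ({xy : ℕ × ℕ | 0 < xy.1 ∧ 0 < xy.2 ∧ xy.1 + xy.2 = N ∧
          AlmostPrime ((N : ℝ) ^ δ) R xy.1 ∧ AlmostPrime ((N : ℝ) ^ δ) R xy.2 ∧
          ((ArithmeticFunction.cardFactors (xy.1 * xy.2) : ℕ) : ZMod k) = v}.ncard : ℝ)) := by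
  classical
  obtain ⟨R, N₀, δ, hδ, hmain⟩ :=
    Pool.Agent.TH423.PO.mainG Pool.Agent.TH423.PO.gct_all k hk ε hε
  refine ⟨R, N₀, δ, hδ, fun N hN hNe => ?_⟩
  obtain ⟨g, hg⟩ := hmain N hN hNe
  have h1 : ∀ u : ZMod k,
        (N : ℝ) ^ (1 - ε) ≤ ({xy : ℕ × ℕ | 0 < xy.1 ∧ 0 < xy.2 ∧ xy.1 + xy.2 = N ∧
          AlmostPrime ((N : ℝ) ^ δ) R xy.1 ∧ AlmostPrime ((N : ℝ) ^ δ) R xy.2 ∧
          ((ArithmeticFunction.cardFactors xy.1 : ℕ) : ZMod k) = u + g ∧
          ((ArithmeticFunction.cardFactors xy.2 : ℕ) : ZMod k) = u}.ncard : ℝ) := by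
    intro u
    refine (hg u).trans (le_of_eq ?_)
    congr 1
    refine Set.ncard_congr (fun x _ => (x, N - x)) ?_ ?_ ?_
    · rintro x ⟨h1, h2, h3, h4, h5, h6⟩
      rw [aux] at h3 h4
      exact ⟨by simp only; omega, by simp only; omega, by simp only; omega, h3.2, h4.2, h5, h6⟩
    · intro x y _ _ h
      simp only [Prod.mk.injEq] at h
      exact h.1
    · rintro ⟨x, y⟩ ⟨h1, h2, h3, h4, h5, h6, h7⟩
      simp only at h1 h2 h3 h4 h5 h6 h7
      have hy : N - x = y := by omega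
      refine ⟨x, ⟨by omega, by omega, ?_, ?_, h6, ?_⟩, by rw [hy]⟩
      · rw [aux]; exact ⟨by omega, h4⟩
      · rw [aux, hy]; exact ⟨by omega, h5⟩
      · rw [hy]; exact h7
  refine ⟨g, h1, fun v hv => ?_⟩
  have h2 : ∃ u : ZMod k, v = g + 2 * u := by
    rcases hv with hodd | h
    · have h2 : IsUnit (2 : ZMod k) := by
        have : IsUnit ((2 : ℕ) : ZMod k) := by
          rw [ZMod.isUnit_iff_coprime]
          exact (Nat.coprime_two_left.2 hodd)
        simpa using this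
      obtain ⟨w, hw⟩ := h2
      refine ⟨↑w⁻¹ * (v - g), ?_⟩
      rw [← hw, ← mul_assoc, Units.mul_inv, one_mul]
      ring
    · exact h
  obtain ⟨u, rfl⟩ := h2
  refine (h1 u).trans ?_
  exact_mod_cast Set.ncard_le_ncard (fun xy hxy => by
    obtain ⟨a1, a2, a3, a4, a5, a6, a7⟩ := hxy
    refine ⟨a1, a2, a3, a4, a5, ?_⟩
    rw [ArithmeticFunction.cardFactors_mul (by omega) (by omega), Nat.cast_add, a6, a7]
    ring)
    (((Set.finite_Iic N).prod (Set.finite_Iic N)).subset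
      fun xy hxy => ⟨by have := hxy.2.2.1; simp only [Set.mem_Iic]; omega,
        by have := hxy.2.2.1; simp only [Set.mem_Iic]; omega⟩)

end Pool.Agent.Results.MP_dd84fd_nt.GoldbachJointClasses
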