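import Pool.Agent.TH899.UG.TED3

/-!
# Goldbach's equation or one of two others: a positive proportion of every window, at every scale

There is `C` such that for every `η > 0`, all sufficiently large `N` and EVERY `H` with
`C ≤ H ≤ N / C` at least one of the following holds:
* `p + q = m` is solvable in primes with at least `N ^ (1 - η)` values of `p ≤ 2 N`, for at least
  `H / 110` of the integers `m` with `|m - 2 N| ≤ H`;
* the same for `2 p - q = m` and `|m - N| ≤ H`;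
* the same for `2 p + q = m` and `|m - 3 N| ≤ H`.

Proof: two of any four classes of linear forms are hit by primes, uniformly in constant terms up to
`N` (`Pool.Agent.TH899.UG.Uni.exactU`), for the slopes `1, -1, 2, -2`; Erdos's theorem on complete
`4`-partite hypergraphs; and an average over the translations of the four classes.
-/

set_option autoImplicit false

namespace Pool.Agent.Results.MP_dd84fd_nt.ThreeEquationsDensity

open Filter

theorem result : ∃ C : ℕ, ∀ η : ℝ, 0 < η → ∀ᶠ N : ℕ in atTop, ∀ H : ℕ, C ≤ H → C * H ≤ N →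
    ∃ a ∈ ({(1, 1, 2), (2, -1, 1), (2, 1, 3)} : Set (ℤ × ℤ × ℤ)),
      (H : ℝ) / 110 ≤ ({m : ℤ | |m - a.2.2 * N| ≤ H ∧ (N : ℝ) ^ (1 - η) ≤
        ({p : ℕ | p ≤ 2 * N ∧ p.Prime ∧
          ∃ q : ℕ, q.Prime ∧ a.1 * (p : ℤ) + a.2.1 * (q : ℤ) = m}.ncard : ℝ)}.ncard : ℝ) := by
  classical
  obtain ⟨C, hC⟩ := Pool.Agent.TH899.UG.TED.ted
  refine ⟨C, fun η hη => ?_⟩
  filter_upwards [hC η hη] with N hN
  intro H h1 h2
  have key : ∀ (α β : ℤ) (a : ℤ × ℤ × ℤ),
      (∀ (m p q : ℤ), α * p + β * m = q → a.1 * p + a.2.1 * q = m) →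
      (H : ℝ) / 110 ≤ (Pool.Agent.TH899.UG.TED.gs N H η α β a.2.2).card →
      (H : ℝ) / 110 ≤ ({m : ℤ | |m - a.2.2 * N| ≤ H ∧ (N : ℝ) ^ (1 - η) ≤
        ({p : ℕ | p ≤ 2 * N ∧ p.Prime ∧
          ∃ q : ℕ, q.Prime ∧ a.1 * (p : ℤ) + a.2.1 * (q : ℤ) = m}.ncard : ℝ)}.ncard : ℝ) := by
    intro α β a heq hle
    refine hle.trans ?_
    rw [← Set.ncard_coe_finset, Nat.cast_le]
    refine Set.ncard_le_ncard ?_ ?_
    · intro m hm
      have hm' := Finset.mem_coe.1 hm
      unfold Pool.Agent.TH899.UG.TED.gs at hm'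
      rw [Finset.mem_filter, Finset.mem_Icc] at hm'
      obtain ⟨⟨h3, h4⟩, h5⟩ := hm'
      refine ⟨abs_le.2 ⟨by linarith, by linarith⟩, h5.trans ?_⟩
      unfold Pool.Agent.TH899.UG.TED.rep
      rw [← Set.ncard_coe_finset, Nat.cast_le]
      refine Set.ncard_le_ncard ?_ ((Set.finite_Iic (2 * N)).subset fun p hp => hp.1)
      intro p hp
      obtain ⟨k1, k2, k3⟩ := Finset.mem_filter.1 (Finset.mem_coe.1 hp)
      refine ⟨(Finset.mem_Icc.1 k1).2, k2, (α * p + β * m).toNat, k3, ?_⟩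
      rw [Pool.Agent.TH899.UG.GD.toNat_eq' k3]
      exact heq m p _ rfl
    · refine (Set.finite_Icc (a.2.2 * (N : ℤ) - H) (a.2.2 * N + H)).subset ?_
      rintro m ⟨hm, -⟩
      have := abs_le.1 hm
      exact ⟨by linarith [this.1], by linarith [this.2]⟩
  rcases hN H h1 h2 with h | h | h
  · exact ⟨(1, 1, 2), by simp, key (-1) 1 (1, 1, 2) (fun m p q h => by
      show (1 : ℤ) * p + 1 * q = m; linarith) h⟩
  · exact ⟨(2, -1, 1), by simp, key 2 (-1) (2, -1, 1) (fun m p q h => by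
      show (2 : ℤ) * p + (-1) * q = m; linarith) h⟩
  · exact ⟨(2, 1, 3), by simp, key (-2) 1 (2, 1, 3) (fun m p q h => by
      show (2 : ℤ) * p + 1 * q = m; linarith) h⟩

end Pool.Agent.Results.MP_dd84fd_nt.ThreeEquationsDensity
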